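import Pool.Agent.J4H50.YP.AsmB
import Pool.Agent.J4H50.YO.Main

set_option autoImplicit false
set_option linter.unusedSectionVars false
set_option linter.unusedVariables false

/-! # Project YP: the volumes of the germs of the class -/

namespace Pool.Agent.J4H50.YP

open MvPolynomial MeasureTheory
open Pool.Agent.W427.SMC
open Pool.Agent.Y230.PT (msK bsK rr)
open Pool.Agent.Y230.PS (EP Vo Vc)
open Pool.Agent.J4H50.IG (cz cz_inj germ fb fb_meas IsoC)
open Pool.Agent.J4H50.YO (NV NonExact)
open Pool.Agent.J4H50.TF (OrdF)

attribute [local instance] msZ bsZ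

section Maps

variable {R S : Type} [CommRing R] [CommRing S] (e : R →+* S) {V : Type}

theorem map_hc (j : ℕ) (F : MvPolynomial V R) :
    map e (homogeneousComponent j F) = homogeneousComponent j (map e F) := by
  ext m
  rw [coeff_map, coeff_homogeneousComponent, coeff_homogeneousComponent, coeff_map]
  split_ifs
  · rfl
  · rw [map_zero]

theorem map_deh [DecidableEq V] (P : V → R) (i : V) (F : MvPolynomial V R) :
    map e (deh P i F) = deh (fun l => e (P l)) i (map e F) := by
  unfold deh
  induction F using MvPolynomial.induction_on with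
  | C a => rw [aeval_C, map_C, aeval_C, algebraMap_eq, algebraMap_eq, map_C]
  | add f g hf hg => rw [map_add, map_add, hf, hg, map_add, map_add]
  | mul_X f j hf =>
    rw [map_mul, map_mul, hf, map_mul, map_mul, map_X, aeval_X, aeval_X]
    congr 1
    split_ifs
    · rw [map_C]
    · rw [map_add, map_X, map_C]

theorem eval_e (P : V → R) (q : MvPolynomial V R) :
    eval (fun l => e (P l)) (map e q) = e (eval P q) := (map_eval e P q).symm

theorem hc_empty [IsEmpty V] (d : ℕ) (hd : 1 ≤ d) (G : MvPolynomial V R) :
    homogeneousComponent d G = 0 := by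
  ext m
  rw [coeff_homogeneousComponent, coeff_zero, if_neg]
  rw [Subsingleton.elim m 0, map_zero]
  omega

theorem hc_idem (d j : ℕ) (G : MvPolynomial V R) :
    homogeneousComponent j (homogeneousComponent d G) =
      if j = d then homogeneousComponent d G else 0 := by
  split_ifs with h
  · rw [h, homogeneousComponent_of_mem (homogeneousComponent_isHomogeneous d G), if_pos rfl]
  · rw [homogeneousComponent_of_mem (homogeneousComponent_isHomogeneous d G), if_neg h]

end Maps

/-- the rest has order greater than `d` -/
theorem rest_ord {V : Type} (G : MvPolynomial V ℂ) (d : ℕ)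
    (hG : ∀ j < d, homogeneousComponent j G = 0) :
    OrdF (fun _ => 1) (d + 1)
      ((G - homogeneousComponent d G : MvPolynomial V ℂ) : MvPowerSeries V ℂ) := by
  intro m hm
  by_contra hlt
  apply hm
  rw [MvPolynomial.coeff_coe, coeff_sub, coeff_homogeneousComponent]
  have h1 : m.degree = Finsupp.weight (fun _ => 1) m := by
    rw [Finsupp.degree_eq_weight_one]
  rw [h1]
  by_cases h : Finsupp.weight (fun _ => 1) m = d
  · rw [if_pos h, sub_self]
  · rw [if_neg h, sub_zero]
    have h2 := congrArg (coeff m) (hG (Finsupp.weight (fun _ => 1) m) (by omega))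
    rw [coeff_homogeneousComponent, h1, if_pos rfl, coeff_zero] at h2
    exact h2

/-- **The volumes of the germs of the class.** -/
theorem lv_of_SIG (hA : S_A) (hB1 : S_B1) (hB2 : S_B2) (hB3 : S_B3) (hC1 : S_C1) (hC2 : S_C2)
    (hD : S_D) (hE : S_E) (hG : S_G) {p : ℕ} [Fact p.Prime] (emb : ℚ_[p] →+* ℂ) {V : Type}
    {G : MvPolynomial V ℂ} (h : SIG V G) : ∀ (inst : Fintype V) (F : MvPolynomial V ℤ_[p]),
      map (emb.comp (cz p)) F = G →
      @LV p _ V inst F {r : ℝ | NV (G : MvPowerSeries V ℂ) (r : ℂ)} := by
  have hinj : Function.Injective (emb.comp (cz p)) := emb.injective.comp cz_inj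
  induction h with
  | @curve V I hV G h0 M hGM =>
    intro inst F hF
    obtain rfl := Subsingleton.elim I inst
    rw [← hF] at h0 hGM ⊢
    refine hE emb hV F M ?_ hGM
    apply hinj
    rw [map_zero]
    have : constantCoeff (map (emb.comp (cz p)) F) = (emb.comp (cz p)) (constantCoeff F) := by
      rw [constantCoeff_map]
    rw [← this, h0]
  | @cone V I _ G d hd hn hG1 hG0 h1 h2 hAA ih =>
    intro inst F hF
    obtain rfl := Subsingleton.elim I inst
    have hne : Nonempty V := by
      by_contra hc
      rw [not_nonempty_iff] at hc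
      exact hG0 (hc_empty d (by omega) G)
    have hhc : ∀ j, map (emb.comp (cz p)) (homogeneousComponent j F) =
        homogeneousComponent j G := fun j => by rw [map_hc, hF]
    have hn1 : 1 ≤ Fintype.card V := Fintype.card_pos_iff.2 hne
    have hdc : (d : ℂ) ≠ 0 := Nat.cast_ne_zero.2 (by omega)
    have hF0 : ∀ j < d, homogeneousComponent j F = 0 := fun j hj => by
      refine map_injective _ hinj ?_
      rw [hhc, hG1 j hj, map_zero]
    have hpd : ∀ (P : V → ℤ_[p]) l, eval (fun i => (emb.comp (cz p)) (P i))
        (pderiv l (homogeneousComponent d G)) =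
        (emb.comp (cz p)) (eval P (pderiv l (homogeneousComponent d F))) := by
      intro P l
      rw [← hhc, pderiv_map, eval_e]
    refine lv_cone hA hB1 hB2 hB3 hC1 hC2 hD F d (by omega) hF0 _ ?_ ?_
    · change NV (G : MvPowerSeries V ℂ) ((-(Fintype.card V : ℝ) / d : ℝ) : ℂ)
      have ec : ((-(Fintype.card V : ℝ) / d : ℝ) : ℂ) = -((Fintype.card V : ℕ) : ℂ) / d := by
        push_cast
        rfl
      rw [ec]
      rcases hAA with hAA | ⟨P, i, hPi, hPs, hNV⟩
      · have h3 := Pool.Agent.J4H28.YO.t_NE d (homogeneousComponent d G)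
          ((G - homogeneousComponent d G : MvPolynomial V ℂ) : MvPowerSeries V ℂ) (by omega)
          (homogeneousComponent_isHomogeneous d G) hG0 (rest_ord G d hG1) hAA
        have h4 : ((homogeneousComponent d G : MvPolynomial V ℂ) : MvPowerSeries V ℂ) +
            ((G - homogeneousComponent d G : MvPolynomial V ℂ) : MvPowerSeries V ℂ) =
            (G : MvPowerSeries V ℂ) := by
          rw [← MvPolynomial.coe_add, add_sub_cancel]
        rwa [h4] at h3
      · have hP0 : P ≠ 0 := fun h0 => hPi (by rw [h0, Pi.zero_apply])
        refine hG G d hd hG1 P i hPi hPs (h1 P hP0 hPs) _ _ ?_ ?_ ?_ hNV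
        · field_simp
          ring
        · intro m hm
          have h5 : (((Fintype.card V + m * d : ℕ)) : ℂ) = 0 := by
            push_cast
            rw [← hm]
            field_simp
            ring
          have h6 : Fintype.card V + m * d = 0 := by exact_mod_cast h5
          omega
        · intro j hj hc
          have h5 : (j : ℂ) = 0 := by
            rw [← hc]
            field_simp
            ring
          have h6 : j = 0 := by exact_mod_cast h5
          omega
    · intro P i0 hi0 hPs
      have hPs' : ∀ l, eval (fun i => (emb.comp (cz p)) (P i))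
          (pderiv l (homogeneousComponent d G)) = 0 := fun l => by
        rw [hpd, hPs l, map_zero]
      have hPi : (fun i => (emb.comp (cz p)) (P i)) i0 ≠ 0 := by
        intro h0
        have h3 : P i0 = 0 := hinj (h0.trans (map_zero _).symm)
        rw [h3, norm_zero] at hi0
        exact zero_ne_one hi0
      have hP0 : (fun i => (emb.comp (cz p)) (P i)) ≠ 0 := fun h0 => hPi (by
        rw [h0, Pi.zero_apply])
      have h3 := h1 _ hP0 hPs'
      refine ⟨fun h4 => h3 ?_, _, ih _ hP0 hPs' i0 hPi inferInstance _ ?_, ?_⟩
      · rw [← hhc, eval_e, h4, map_zero]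
      · rw [map_deh, hhc]
      · intro r hr hr2 hr3
        have hr3' : NV ((deh (fun i => (emb.comp (cz p)) (P i)) i0 (homogeneousComponent d G) :
          MvPolynomial {j : V // j ≠ i0} ℂ) : MvPowerSeries {j : V // j ≠ i0} ℂ)
          (((Fintype.card V : ℝ) + (d + 1) * r : ℝ) : ℂ) := hr3
        refine hG G d hd hG1 _ i0 hPi hPs' h3 (r : ℂ) _ ?_ ?_ ?_ hr3'
        · push_cast
          rfl
        · intro m hm
          have h5 : r = (m : ℝ) := by exact_mod_cast hm
          rw [h5] at hr
          exact absurd hr (not_lt.2 (Nat.cast_nonneg m))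
        · intro j hj hc
          have h5 : (Fintype.card V : ℝ) + d * r = (j : ℝ) := by exact_mod_cast hc
          have h6 : r < -(j : ℝ) := by linarith
          have h7 : (1 : ℝ) ≤ j := by exact_mod_cast hj
          have h8 : (Fintype.card V : ℝ) ≤ d + 1 := by exact_mod_cast hn
          have h9 : (0 : ℝ) < d := Nat.cast_pos.2 (by omega)
          have h10 : (d : ℝ) * r < (d : ℝ) * (-(j : ℝ)) := mul_lt_mul_of_pos_left h6 h9
          have h11 : (d : ℝ) * 1 ≤ d * j := mul_le_mul_of_nonneg_left h7 h9.le
          linarith

end Pool.Agent.J4H50.YP
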