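import Pool.Agent.J4H50.YP.AsmD

set_option autoImplicit false
set_option linter.unusedSectionVars false
set_option linter.unusedVariables false

/-! # Project YP: the theorem, from the pieces (with the case `d = n`) -/

namespace Pool.Agent.J4H50.YP

open MvPolynomial MeasureTheory
open Pool.Agent.W427.SMC
open Pool.Agent.Y230.PT (msK bsK rr)
open Pool.Agent.Y230.PS (EP Vo Vc)
open Pool.Agent.J4H50.IG (cz cz_inj germ fb fb_meas IsoC)
open Pool.Agent.J4H50.YO (NV NonExact)
open Pool.Agent.J4H50.TF (OrdF)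

attribute [local instance] msZ bsZ

/-- `SI V G`: the germ of `G` at the origin is a superisolated singularity: `G = G_d + G_{d+1} + ⋯`,
`n ≤ d + 1` for the number `n` of variables, and for all singular points `P` of the tangent cone
`G_d = 0` in the projective space `G_{d+1}(P) ≠ 0`, and the germ of the tangent cone at `P` (`deh`) is in
the class `SIG`. Moreover `d = n`, or the form `G_d ^ (- n / d) dx` is not exact on the complement of
the cone, or there is a de Rham functional (`NV`) at `- n / d` for the germ of the tangent cone at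
some `P`. -/
def SI (V : Type) [Fintype V] [DecidableEq V] (G : MvPolynomial V ℂ) : Prop :=
  ∃ d : ℕ, 2 ≤ d ∧ Fintype.card V ≤ d + 1 ∧ (∀ j < d, homogeneousComponent j G = 0) ∧
    homogeneousComponent d G ≠ 0 ∧
    (∀ P : V → ℂ, P ≠ 0 → (∀ l, eval P (pderiv l (homogeneousComponent d G)) = 0) →
      eval P (homogeneousComponent (d + 1) G) ≠ 0 ∧
        ∀ i, P i ≠ 0 → SIG {j : V // j ≠ i} (deh P i (homogeneousComponent d G))) ∧
    (Fintype.card V = d ∨
      NonExact (homogeneousComponent d G) (-((Fintype.card V : ℕ) : ℂ) / d) ∨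
      ∃ (P : V → ℂ) (i : V), P i ≠ 0 ∧
        (∀ l, eval P (pderiv l (homogeneousComponent d G)) = 0) ∧
        NV (deh P i (homogeneousComponent d G) : MvPowerSeries {j : V // j ≠ i} ℂ)
          (-((Fintype.card V : ℕ) : ℂ) / d))

/-- **The volumes of superisolated germs.** -/
theorem lv_top (hA : S_A) (hB1 : S_B1) (hB2 : S_B2) (hB3 : S_B3) (hC1 : S_C1) (hC2 : S_C2)
    (hD : S_D) (hE : S_E) (hG : S_G) {p : ℕ} [Fact p.Prime] (emb : ℚ_[p] →+* ℂ) {V : Type}
    [Fintype V] [DecidableEq V] {G : MvPolynomial V ℂ} (h : SI V G) (F : MvPolynomial V ℤ_[p])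
    (hF : map (emb.comp (cz p)) F = G) :
    LV F ({r : ℝ | NV (G : MvPowerSeries V ℂ) (r : ℂ)} ∪ {-1}) := by
  have hinj : Function.Injective (emb.comp (cz p)) := emb.injective.comp cz_inj
  obtain ⟨d, hd, hn, hG1, hG0, h12, hAA'⟩ := h
  have h1 : ∀ P : V → ℂ, P ≠ 0 → (∀ l, eval P (pderiv l (homogeneousComponent d G)) = 0) →
      eval P (homogeneousComponent (d + 1) G) ≠ 0 := fun P hP h => (h12 P hP h).1
  have hne : Nonempty V := by
    by_contra hc
    rw [not_nonempty_iff] at hc
    exact hG0 (hc_empty d (by omega) G)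
  have hhc : ∀ j, map (emb.comp (cz p)) (homogeneousComponent j F) =
      homogeneousComponent j G := fun j => by rw [map_hc, hF]
  have hn1 : 1 ≤ Fintype.card V := Fintype.card_pos_iff.2 hne
  have hdc : (d : ℂ) ≠ 0 := Nat.cast_ne_zero.2 (by omega)
  have hF0 : ∀ j < d, homogeneousComponent j F = 0 := fun j hj => by
    refine map_injective _ hinj ?_
    rw [hhc, hG1 j hj, map_zero]
  have hpd : ∀ (P : V → ℤ_[p]) l, eval (fun i => (emb.comp (cz p)) (P i))
      (pderiv l (homogeneousComponent d G)) =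
      (emb.comp (cz p)) (eval P (pderiv l (homogeneousComponent d F))) := by
    intro P l
    rw [← hhc, pderiv_map, eval_e]
  refine lv_cone hA hB1 hB2 hB3 hC1 hC2 hD F d (by omega) hF0 _ ?_ ?_
  · rcases hAA' with hdn | hAA
    · right
      rw [Set.mem_singleton_iff, hdn]
      have hdr : (d : ℝ) ≠ 0 := Nat.cast_ne_zero.2 (by omega)
      field_simp
    left
    change NV (G : MvPowerSeries V ℂ) ((-(Fintype.card V : ℝ) / d : ℝ) : ℂ)
    have ec : ((-(Fintype.card V : ℝ) / d : ℝ) : ℂ) = -((Fintype.card V : ℕ) : ℂ) / d := by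
      push_cast
      rfl
    rw [ec]
    rcases hAA with hAA | ⟨P, i, hPi, hPs, hNV⟩
    · have h3 := Pool.Agent.J4H28.YO.t_NE d (homogeneousComponent d G)
        ((G - homogeneousComponent d G : MvPolynomial V ℂ) : MvPowerSeries V ℂ) (by omega)
        (homogeneousComponent_isHomogeneous d G) hG0 (rest_ord G d hG1) hAA
      have h4 : ((homogeneousComponent d G : MvPolynomial V ℂ) : MvPowerSeries V ℂ) +
          ((G - homogeneousComponent d G : MvPolynomial V ℂ) : MvPowerSeries V ℂ) =
          (G : MvPowerSeries V ℂ) := by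
        rw [← MvPolynomial.coe_add, add_sub_cancel]
      rwa [h4] at h3
    · have hP0 : P ≠ 0 := fun h0 => hPi (by rw [h0, Pi.zero_apply])
      refine hG G d hd hG1 P i hPi hPs (h1 P hP0 hPs) _ _ ?_ ?_ ?_ hNV
      · field_simp
        ring
      · intro m hm
        have h5 : (((Fintype.card V + m * d : ℕ)) : ℂ) = 0 := by
          push_cast
          rw [← hm]
          field_simp
          ring
        have h6 : Fintype.card V + m * d = 0 := by exact_mod_cast h5
        omega
      · intro j hj hc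
        have h5 : (j : ℂ) = 0 := by
          rw [← hc]
          field_simp
          ring
        have h6 : j = 0 := by exact_mod_cast h5
        omega
  · intro P i0 hi0 hPs
    have hPs' : ∀ l, eval (fun i => (emb.comp (cz p)) (P i))
        (pderiv l (homogeneousComponent d G)) = 0 := fun l => by
      rw [hpd, hPs l, map_zero]
    have hPi : (fun i => (emb.comp (cz p)) (P i)) i0 ≠ 0 := by
      intro h0
      have h3 : P i0 = 0 := hinj (h0.trans (map_zero _).symm)
      rw [h3, norm_zero] at hi0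
      exact zero_ne_one hi0
    have hP0 : (fun i => (emb.comp (cz p)) (P i)) ≠ 0 := fun h0 => hPi (by
      rw [h0, Pi.zero_apply])
    have h3 := h1 _ hP0 hPs'
    refine ⟨fun h4 => h3 ?_, _, lv_of_SIG hA hB1 hB2 hB3 hC1 hC2 hD hE hG emb
      ((h12 _ hP0 hPs').2 i0 hPi) inferInstance _ ?_, ?_⟩
    · rw [← hhc, eval_e, h4, map_zero]
    · rw [map_deh, hhc]
    · intro r hr hr2 hr3
      have hr3' : NV ((deh (fun i => (emb.comp (cz p)) (P i)) i0 (homogeneousComponent d G) :
        MvPolynomial {j : V // j ≠ i0} ℂ) : MvPowerSeries {j : V // j ≠ i0} ℂ)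
        (((Fintype.card V : ℝ) + (d + 1) * r : ℝ) : ℂ) := hr3
      refine Or.inl (hG G d hd hG1 _ i0 hPi hPs' h3 (r : ℂ) _ ?_ ?_ ?_ hr3')
      · push_cast
        rfl
      · intro m hm
        have h5 : r = (m : ℝ) := by exact_mod_cast hm
        rw [h5] at hr
        exact absurd hr (not_lt.2 (Nat.cast_nonneg m))
      · intro j hj hc
        have h5 : (Fintype.card V : ℝ) + d * r = (j : ℝ) := by exact_mod_cast hc
        have h6 : r < -(j : ℝ) := by linarith
        have h7 : (1 : ℝ) ≤ j := by exact_mod_cast hj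
        have h8 : (Fintype.card V : ℝ) ≤ d + 1 := by exact_mod_cast hn
        have h9 : (0 : ℝ) < d := Nat.cast_pos.2 (by omega)
        have h10 : (d : ℝ) * r < (d : ℝ) * (-(j : ℝ)) := mul_lt_mul_of_pos_left h6 h9
        have h11 : (d : ℝ) * 1 ≤ d * j := mul_le_mul_of_nonneg_left h7 h9.le
        linarith

end Pool.Agent.J4H50.YP

namespace Pool.Agent.J4H50.YP

open MvPolynomial MeasureTheory
open Pool.Agent.W427.SMC
open Pool.Agent.Y230.PT (msK bsK inc rr exists_emb)
open Pool.Agent.Y230.PS (EP Vo Vc N0 N0_EP mem_N0 hyp single_of_isB)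
open Pool.Agent.N138.SU Pool.Agent.N138.SV
open Pool.Agent.N138.BF
open Pool.Agent.H628R4.TP (IsBFunction)
open Pool.Agent.J4H50.IG (hm mI cz cz_inj germ fb fb_meas LocOK loc_ne loc_nc hes hes_map rank_ext
  hes_symm germ_germ cc_germ pderiv_germ map_germ eval_castQ aeval_emb SingC mem_sq IsoC TS JEq
  germTS_nc Mild RatTS mild_ts rat_ts iso_descend eval_cz nonempty_of_nc mB_le loc_ts)
open Pool.Agent.J4H50.NI (mS mS_top LocX LocX_of loc_iso mW_mS)
open Pool.Agent.J4H50.YO (NV NonExact)


attribute [local instance] msZ bsZ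

/-- **Hypersurfaces whose singular points are superisolated, or isolated and mild, or rational
Thom-Sebastiani sums.** -/
theorem main_poles2 {p : ℕ} [Fact p.Prime] {V : Type} [Fintype V] [DecidableEq V] (hA : S_A) (hB1 : S_B1) (hB2 : S_B2) (hB3 : S_B3) (hC1 : S_C1) (hC2 : S_C2)
    (hD : S_D) (hE : S_E) (hG : S_G) (hH : S_H) (hFF : S_F)
    (f : MvPolynomial V ℤ) (hV : 2 ≤ Fintype.card V) (hf : ∀ c, f ≠ C c)
    (h : ∀ x ∈ SingC f, SI V (germ (map (Int.castRingHom ℂ) f) x) ∨
      ((∃ M, IsoC (germ (map (Int.castRingHom ℂ) f) x) M) ∧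
        (Mild (germ (map (Int.castRingHom ℂ) f) x) ∨ RatTS f x)))
    (b : Polynomial ℂ) (hb : IsBFunction (map (Int.castRingHom ℂ) f) b)
    (Z : ℂ → ℂ) (hZ : MeromorphicOn Z Set.univ)
    (hZp : ∀ s : ℂ, 0 < s.re → Z s = igusaZeta p f s) (s₀ : ℂ)
    (hs : meromorphicOrderAt Z s₀ < 0) : b.eval (s₀.re : ℂ) = 0 := by
  have hf0 : f ≠ 0 := fun h0 => hf 0 (by rw [h0, map_zero])
  obtain ⟨emb⟩ := exists_emb p
  have hbQ : IsBFunction (map (algebraMap ℚ ℂ) (map (Int.castRingHom ℚ) f)) b := by
    rw [map_map]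
    have e : (algebraMap ℚ ℂ).comp (Int.castRingHom ℚ) = Int.castRingHom ℂ :=
      RingHom.ext_int _ _
    rw [e]
    exact hb
  have hB1' : b.eval ((-1 : ℝ) : ℂ) = 0 := by
    have h1 := FK_nc _ (germTS_nc f hf) b (single_of_isB _ b hbQ)
    rw [pow_one] at h1
    have h2 := Polynomial.dvd_iff_isRoot.1 h1
    push_cast
    exact h2
  refine hFF (p := p) f {r | b.eval (r : ℂ) = 0} hB1' (fun P => ?_) Z hZ hZp s₀ hs
  set fp : MvPolynomial V ℤ_[p] := map (Int.castRingHom ℤ_[p]) f with hfp
  have ev : ∀ q : MvPolynomial V ℤ, eval P (map (Int.castRingHom ℤ_[p]) q) = aeval P q := by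
    intro q
    rw [eval_map]
    rfl
  by_cases hP : eval P fp = 0
  swap
  · exact Or.inl fun χ => LocX_of (loc_ne fp P hP _) χ
  by_cases hc : ∀ i, eval P (pderiv i fp) = 0
  swap
  · push Not at hc
    obtain ⟨i, hi⟩ := hc
    exact Or.inl fun χ => LocX_of (loc_nc fp P i hi _) χ
  -- the complex singular point
  set g : MvPolynomial V ℚ_[p] := germ (map (cz p) fp) fun i => cz p (P i) with hg
  set x : V → ℂ := fun i => emb (P i : ℚ_[p]) with hx
  have hev : ∀ q : MvPolynomial V ℤ, aeval x q = emb ((aeval P q : ℤ_[p]) : ℚ_[p]) :=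
    fun q => aeval_emb emb q P
  have hxS : x ∈ SingC f := by
    refine ⟨?_, fun i => ?_⟩
    · rw [hev, ← ev, hP, PadicInt.coe_zero, map_zero]
    · rw [hev, ← ev, ← pderiv_map, hc i, PadicInt.coe_zero, map_zero]
  have hmg : map emb g = germ (map (Int.castRingHom ℂ) f) x := by
    rw [hg, map_germ, hfp, map_map, map_map]
    have : (emb.comp (cz p)).comp (Int.castRingHom ℤ_[p]) = Int.castRingHom ℂ :=
      RingHom.ext_int _ _
    rw [← this]
    rfl
  rcases h x hxS with hr | ⟨⟨M, hM⟩, hm⟩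
  · -- superisolated
    right
    have hgp : map (emb.comp (cz p)) (germ fp P) = germ (map (Int.castRingHom ℂ) f) x := by
      rw [map_germ, hfp, map_map]
      have : (emb.comp (cz p)).comp (Int.castRingHom ℤ_[p]) = Int.castRingHom ℂ :=
        RingHom.ext_int _ _
      rw [← this]
      rfl
    have h1 := lv_top hA hB1 hB2 hB3 hC1 hC2 hD hE hG emb hr _ hgp
    refine lvp_of_lv fp P _ _ (fun r hr'' => ?_) hB1' h1
    rcases hr'' with hr' | hr'
    swap
    · rw [Set.mem_singleton_iff] at hr'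
      rw [hr']
      exact hB1'
    have hfC : map (Int.castRingHom ℂ) f ≠ 0 := fun h =>
      hf0 (map_injective _ Int.cast_injective (h.trans (map_zero _).symm))
    have evx : ∀ q : MvPolynomial V ℤ, eval x (map (Int.castRingHom ℂ) q) = aeval x q := by
      intro q
      rw [eval_map]
      rfl
    refine hH _ b hfC hb x ?_ (fun i => ?_) (r : ℂ) hr'
    · rw [evx]
      exact hxS.1
    · rw [pderiv_map, evx]
      exact hxS.2 i
  · -- isolated singularities
    left
    intro χ
    have hg2 : g ∈ mI V ℚ_[p] ^ 2 := by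
      refine mem_sq _ ?_ fun i => ?_
      · rw [hg, cc_germ, ← eval_cz, hP, map_zero]
      · rw [hg, pderiv_germ, cc_germ, pderiv_map, ← eval_cz, hc i, map_zero]
    rw [← hmg] at hM hm
    have hMg : IsoC g (M + 1) := (iso_descend emb hM).mono (Nat.le_succ M)
    have h1 : ∃ F : MvPolynomial V ℚ_[p], TS ℚ_[p] F ∧ (∃ M, IsoC F M) ∧ ∀ n, JEq g F n := by
      rcases hm with hm | hm
      · exact mild_ts two_ne_zero emb g hg2 (Nat.le_add_left 1 M) hMg hV hm
      · exact rat_ts emb f x (fun i => ⟨_, rfl⟩) g hmg (Nat.le_add_left 1 M) hMg hm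
    obtain ⟨k0, hk0⟩ := LocX_of (loc_iso f hf P hP hc h1) χ
    exact ⟨k0, fun k hk => Pool.Agent.Y230.TH.EP_mono (fun T _ => mW_mS f b hb T) (hk0 k hk)⟩

end Pool.Agent.J4H50.YP
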