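import Pool.Agent.J4H50.NI.Fin2
import Pool.Agent.J4H50.YO.Defs

set_option autoImplicit false

/-! # Project YP: `p`-adic zeta functions of superisolated singularities, exact statements

All measures are the Haar measure on `ℤ_p ^ V` (`Measure.pi fun _ => mu p`), of total volume one. -/

namespace Pool.Agent.J4H50.YP

open MvPolynomial MeasureTheory
open Pool.Agent.W427.SMC
open Pool.Agent.Y230.PT (msK bsK rr Reg LReg Zc Hn)
open Pool.Agent.Y230.PS (EP Vo Vc)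
open Pool.Agent.H628R4.TP (IsBFunction)
open Pool.Agent.J4H50.IG (cz germ fb SingC IsoC Mild RatTS)
open Pool.Agent.J4H50.NI (mS LocX)
open Pool.Agent.J4H50.YO (NV NonExact)

attribute [local instance] msZ bsZ

section Defs

/-- `F(P + y)` for `y_i = 0`, as a polynomial in the other variables -/
noncomputable def deh {R : Type} [CommRing R] {V : Type} [DecidableEq V] (P : V → R) (i : V)
    (F : MvPolynomial V R) : MvPolynomial {j : V // j ≠ i} R :=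
  aeval (fun j => if h : j = i then C (P i) else X ⟨j, h⟩ + C (P j)) F

/-- `SIG V G`: the germ of `G` at the origin is

* `curve`: a plane curve with an isolated critical point, or smooth;
* `cone`: a superisolated singularity: `G = G_d + G_{d+1} + ⋯`, `n ≤ d + 1` for the number `n` of
  variables, and for all singular points `P` of the tangent cone `G_d = 0` in the projective space
  `G_{d+1}(P) ≠ 0`, and the germ of the tangent cone at `P` (`deh`) is in the class. Moreover the form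
  `G_d ^ (- n / d) dx` is not exact on the complement of the cone, or there is a de Rham functional
  (`NV`) at `- n / d` for the germ of the tangent cone at some `P`. -/
inductive SIG : (V : Type) → MvPolynomial V ℂ → Prop
  | curve {V : Type} [Fintype V] (hV : Fintype.card V = 2) (G : MvPolynomial V ℂ)
      (h0 : constantCoeff G = 0) (M : ℕ) (hG : IsoC G M) : SIG V G
  | cone {V : Type} [Fintype V] [DecidableEq V] (G : MvPolynomial V ℂ) (d : ℕ) (hd : 2 ≤ d)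
      (hn : Fintype.card V ≤ d + 1) (hG : ∀ j < d, homogeneousComponent j G = 0)
      (hG0 : homogeneousComponent d G ≠ 0)
      (h1 : ∀ P : V → ℂ, P ≠ 0 →
        (∀ l, eval P (pderiv l (homogeneousComponent d G)) = 0) →
        eval P (homogeneousComponent (d + 1) G) ≠ 0)
      (h2 : ∀ P : V → ℂ, P ≠ 0 →
        (∀ l, eval P (pderiv l (homogeneousComponent d G)) = 0) → ∀ i, P i ≠ 0 →
        SIG {j : V // j ≠ i} (deh P i (homogeneousComponent d G)))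
      (hA : NonExact (homogeneousComponent d G) (-((Fintype.card V : ℕ) : ℂ) / d) ∨
        ∃ (P : V → ℂ) (i : V), P i ≠ 0 ∧
          (∀ l, eval P (pderiv l (homogeneousComponent d G)) = 0) ∧
          NV (deh P i (homogeneousComponent d G) : MvPowerSeries {j : V // j ≠ i} ℂ)
            (-((Fintype.card V : ℕ) : ℂ) / d)) : SIG V G

variable {p : ℕ} [Fact p.Prime] {V : Type} [Fintype V]

/-- `T` with real part in `N`, and `T = p` with multiplicity one -/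
noncomputable def mN (p : ℕ) [Fact p.Prime] (N : Set ℝ) (T : ℂ) : ℕ∞ :=
  open Classical in if 1 < ‖T‖ ∧ rr p T ∈ N then ⊤ else if T = p then 1 else 0

/-- the volumes of `‖F(p ^ k y)‖ ≤ p ^ (- e)`, `y ∈ ℤ_p ^ V`, for large `k` -/
def LV (F : MvPolynomial V ℤ_[p]) (N : Set ℝ) : Prop :=
  ∃ k0 : ℕ, ∀ k, k0 ≤ k → Vc (Measure.pi fun _ : V => mu p) (fun y => ‖fb F 0 k y‖) p ∈ EP (mN p N)

/-- the volumes of `‖F(P + p ^ k y)‖ ≤ p ^ (- e)` for large `k` -/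
def LVP (F : MvPolynomial V ℤ_[p]) (P : V → ℤ_[p]) (B : Set ℝ) : Prop :=
  ∃ k0 : ℕ, ∀ k, k0 ≤ k → Vc (Measure.pi fun _ : V => mu p) (fun y => ‖fb F P k y‖) p ∈ EP (mS p B)

/-- `F(t ξ) / t ^ d`, if `F` only has terms of degree at least `d` -/
noncomputable def Qf (F : MvPolynomial V ℤ_[p]) (d : ℕ) (t : ℤ_[p]) (ξ : V → ℤ_[p]) : ℤ_[p] :=
  ∑ j ∈ Finset.range (F.totalDegree + 1), t ^ (j - d) * eval ξ (homogeneousComponent j F)

/-- the volume of the `(u, η)`, `‖u‖ = 1`, with `‖F(t ξ) / t ^ d‖ ≤ p ^ (- j)` for `t = p ^ m u`,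
`ξ = P + p ^ ρ η` -/
noncomputable def Wt (F : MvPolynomial V ℤ_[p]) (d : ℕ) (P : V → ℤ_[p]) (ρ m j : ℕ) : ℝ :=
  (((mu p).prod (Measure.pi fun _ : V => mu p)) {z | ‖z.1‖ = 1 ∧
    ‖Qf F d ((p : ℤ_[p]) ^ m * z.1) (fun i => P i + (p : ℤ_[p]) ^ ρ * z.2 i)‖ ≤
      ((p : ℝ)⁻¹) ^ j}).toReal

/-- the volumes `Wt` at a superisolated point -/
noncomputable def wc (p γ : ℕ) (v : ℕ → ℂ) (m j : ℕ) : ℂ :=
  if j ≤ m + γ then (1 - (p : ℂ)⁻¹) * v j
  else (v (m + γ) - v (m + γ + 1)) * ((p : ℂ)⁻¹) ^ (j - (m + γ))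

end Defs

/-- (A) the decomposition of `ℤ_p ^ V ∖ 0` into the sets `p ^ i S`, `S` the set of the primitive vectors
(`‖ξ_l‖ = 1` for some `l`), and of `S` into finitely many tubes
`{ξ | ∃ u, ‖u‖ = 1, ξ ≡ u P mod p ^ ρ}`. Proof: two tubes are disjoint or one contains the other (if
`ρ ≥ 1`), so that the maximal ones in a finite cover of the compact set `S` by tubes with center `P` and
`ρ = max 1 (ρ0 P)` are a partition. For a tube `𝓣` with center `P`, and `D = Measure.pi _`: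
`p ^ (- ρ) vol(X ∩ 𝓣) = ∫_{‖u‖ = 1} vol(X ∩ (u P + p ^ ρ ℤ_p ^ V)) du =
p ^ (- n ρ) vol{(u, η) | ‖u‖ = 1, u (P + p ^ ρ η) ∈ X}`
by Fubini, because `{u | ξ ≡ u P mod p ^ ρ}` has the volume `p ^ (- ρ)` for `ξ ∈ 𝓣`. (Balls:
`Pool.Agent.N138.RF.D.t`, `.du`.) -/
def S_A : Prop := ∀ {p : ℕ} [Fact p.Prime] {V : Type} [Fintype V] [Nonempty V]
  (ρ0 : (V → ℤ_[p]) → ℕ), ∃ A : Finset ((V → ℤ_[p]) × ℕ),
  (∀ a ∈ A, (∃ i, ‖a.1 i‖ = 1) ∧ 1 ≤ a.2 ∧ ρ0 a.1 ≤ a.2) ∧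
  ∀ X : Set (V → ℤ_[p]), MeasurableSet X →
    ((Measure.pi fun _ : V => mu p) X).toReal =
      ∑ a ∈ A, ((p : ℝ)⁻¹) ^ ((Fintype.card V - 1) * a.2) * ∑' i : ℕ,
        ((p : ℝ)⁻¹) ^ (Fintype.card V * i) *
          (((mu p).prod (Measure.pi fun _ : V => mu p)) {z | ‖z.1‖ = 1 ∧
            (fun l => (p : ℤ_[p]) ^ i * (z.1 * (a.1 l + (p : ℤ_[p]) ^ a.2 * z.2 l))) ∈ X}).toReal

/-- (B1) points outside of the tangent cone: `‖Qf ⋯‖ = ‖F_d(P)‖ = p ^ (- c)` for `ρ, m > c` -/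
def S_B1 : Prop := ∀ {p : ℕ} [Fact p.Prime] {V : Type} [Fintype V]
  (F : MvPolynomial V ℤ_[p]) (d : ℕ), (∀ j < d, homogeneousComponent j F = 0) →
  ∀ P : V → ℤ_[p], eval P (homogeneousComponent d F) ≠ 0 →
  ∃ c ρ0 : ℕ, ∀ ρ, ρ0 ≤ ρ → ∃ m0 : ℕ, ∀ m, m0 ≤ m → ∀ j : ℕ,
    Wt F d P ρ m j = if j ≤ c then 1 - (p : ℝ)⁻¹ else 0

/-- (B2) smooth points of the tangent cone: let `p ^ (- c)` be the maximum of the `‖∂_l F_d(P)‖`; for
`ρ > c`, `m > ρ + c` the function is `p ^ (ρ + c) (∑ a_l η_l + p h(η))` for every `u`, with some unit `a_l`,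
so that it is uniformly distributed in `p ^ (ρ + c) ℤ_p` -/
def S_B2 : Prop := ∀ {p : ℕ} [Fact p.Prime] {V : Type} [Fintype V]
  (F : MvPolynomial V ℤ_[p]) (d : ℕ), (∀ j < d, homogeneousComponent j F = 0) →
  ∀ P : V → ℤ_[p], eval P (homogeneousComponent d F) = 0 →
  (∃ l, eval P (pderiv l (homogeneousComponent d F)) ≠ 0) →
  ∃ c ρ0 : ℕ, ∀ ρ, ρ0 ≤ ρ → ∃ m0 : ℕ, ∀ m, m0 ≤ m → ∀ j : ℕ,
    Wt F d P ρ m j = (1 - (p : ℝ)⁻¹) * ((p : ℝ)⁻¹) ^ (j - (ρ + c))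

/-- (B3) points with `F_{d+1}(P) ≠ 0`: let `‖F_{d+1}(P)‖ = p ^ (- γ)`, `ρ > γ`, `m > γ`. Then
`Qf ⋯ = F_d(ξ) + p ^ m u (F_{d+1}(ξ) + p ^ m u F_{d+2}(ξ) + ⋯)`. For `j ≤ m + γ` the condition is
`‖F_d(ξ)‖ ≤ p ^ (- j)`. For `j > m + γ` it is `‖F_d(ξ)‖ = p ^ (- (m + γ))` and `u` is in a ball of radius
`p ^ (- (j - (m + γ)))`, because `u ↦ u (F_{d+1}(ξ) + p ^ m u F_{d+2}(ξ) + ⋯)` is `p ^ γ` times an isometry of
the units. -/
def S_B3 : Prop := ∀ {p : ℕ} [Fact p.Prime] {V : Type} [Fintype V]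
  (F : MvPolynomial V ℤ_[p]) (d : ℕ), (∀ j < d, homogeneousComponent j F = 0) →
  ∀ P : V → ℤ_[p], eval P (homogeneousComponent (d + 1) F) ≠ 0 →
  ∃ γ ρ0 : ℕ, ∀ ρ, ρ0 ≤ ρ → ∃ m0 : ℕ, ∀ m, m0 ≤ m → ∀ j : ℕ,
    (Wt F d P ρ m j : ℂ) = wc p γ (Vc (Measure.pi fun _ : V => mu p)
      (fun η => ‖eval (fun l => P l + (p : ℤ_[p]) ^ ρ * η l) (homogeneousComponent d F)‖) p) m j

/-- (C1) the sum over the `p ^ i S`, first case. The power series of the sequence is, up to the first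
terms (for `e ≤ d k` it is constant), `T ^ (d k) W(T) / (1 - p ^ (- n) T ^ d)` plus a sequence with
`c (e + d) = p ^ (- n) c e` for large `e` (the terms with `e < d (k + i)`). Only `T ^ d = p ^ n` and `T = p`
(simple pole; if `p ^ d = p ^ n` then `- n / d = - 1 = rr p p ∈ N`) occur. See
`Y230/PS/Had.lean` (`EP`, `rat_EP`, `EP_rat`). -/
def S_C1 : Prop := ∀ (p : ℕ) [Fact p.Prime] (n d k : ℕ), 1 ≤ n → 1 ≤ d → ∀ N : Set ℝ,
  -(n : ℝ) / d ∈ N → ∀ w : ℕ → ℂ, w ∈ EP (mN p ∅) →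
  (fun e : ℕ => ∑' i : ℕ, ((p : ℂ)⁻¹) ^ (n * i) * w (e - d * (k + i))) ∈ EP (mN p N)

/-- (C2) the sum over the `p ^ i S`, superisolated points. An element `v` of `EP (mN p N)` is
`a p ^ (- j) + v₁`, `v₁ ∈ EP (mS p N)`, and for `v = (p ^ (- j))` we have `wc p γ v m j = (1 - p⁻¹) p ^ (- j)`,
which is (C1). For `v = v₁`, with `V(T) = ∑ v_j T ^ j`, `q = p ^ (- n) T ^ d`, the power series is, up to
finitely many terms, and up to factors `p ^ ± T ^ ±`, `(1 - p⁻¹) q ^ (- γ) V(T q) / (1 - q)` (since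
`∑_{m ≥ max(k, j - γ)} q ^ m = q ^ max(k, j - γ) / (1 - q)`), plus
`(T / p) / (1 - T / p) q ^ (- γ) ∑_j (v_j - v_(j+1)) (T q) ^ j`, plus a sequence with
`c (e + d) = p ^ (- n) c e` for large `e`. If `T' = T q = p ^ (- n) T ^ (d + 1)` then
`rr p T' = n + (d + 1) rr p T`. The pole `T = p` is simple, unless `n = d` or `rr p T' = n - (d + 1) ∈ N`. -/
def S_C2 : Prop := ∀ (p : ℕ) [Fact p.Prime] (n d k γ : ℕ), 1 ≤ n → 1 ≤ d → ∀ N N' : Set ℝ,
  -(n : ℝ) / d ∈ N' →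
  (∀ r : ℝ, r < 0 → (n : ℝ) + (d + 1) * r < 0 → (n : ℝ) + (d + 1) * r ∈ N → r ∈ N') →
  ∀ v : ℕ → ℂ, v ∈ EP (mN p N) →
  (fun e : ℕ => ∑' i : ℕ, ((p : ℂ)⁻¹) ^ (n * i) * wc p γ v (k + i) (e - d * (k + i))) ∈
    EP (mN p N')

/-- (D) the volumes of a form near a point `P` with `‖P_i‖ = 1`: for `ξ = P + p ^ ρ η` let
`u = ξ_i / P_i`, `‖u‖ = 1`; then `‖F(ξ)‖ = ‖F(ξ / u)‖`, and `ξ / u = (P_l + p ^ ρ η'_l)` with `η'_i = 0`,
`η'_l = (η_l - P_l η_i / P_i) / u` for `l ≠ i`: for every `η_i` an affine isometry of `ℤ_p`. -/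
def S_D : Prop := ∀ {p : ℕ} [Fact p.Prime] {V : Type} [Fintype V] [DecidableEq V]
  (F : MvPolynomial V ℤ_[p]) (d : ℕ), F.IsHomogeneous d → ∀ (P : V → ℤ_[p]) (i : V), ‖P i‖ = 1 →
  ∀ ρ, 1 ≤ ρ → Vc (Measure.pi fun _ : V => mu p)
      (fun η => ‖eval (fun l => P l + (p : ℤ_[p]) ^ ρ * η l) F‖) p =
    Vc (Measure.pi fun _ : {l : V // l ≠ i} => mu p) (fun η => ‖fb (deh P i F) 0 ρ η‖) p

/-- (E1) reduced plane curves, the local theorem at the origin. As `local_cE` (for `T0 ≠ p`, by `main_C`)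
and `local_pE` (for `T0 = p`, by `main_M`) in `J4H50/NI/P2.lean`, but with the condition `¬ NV` instead of
`LEv`. Use `evp_curve` (`J4H50/YM/Cv2.lean`: `¬ NV → Evp`), and `Inv3`, `blow3` etc. (`J4H50/YO/CuD.lean`,
`CuE.lean`: the tree of blow-ups with `Evp`, as in `J4H97/YZ/Z6.lean`) for the context. In the leaves
`m = 1` (if `g = h ^ m κ`, `m ≥ 2`, at some infinitely near point, then `G` has a factor `h₁ ^ 2`,
`h₁(0) = 0`). -/
def S_E1 : Prop := ∀ {p : ℕ} [Fact p.Prime] (emb : ℚ_[p] →+* ℂ) (G : MvPolynomial (Fin 2) ℚ_[p]), G ≠ 0 →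
  (∀ h κ : MvPolynomial (Fin 2) ℚ_[p], G = h ^ 2 * κ → constantCoeff h ≠ 0) → ∀ T0 : ℂ, 1 < ‖T0‖ →
  ¬ NV ((map emb G : MvPolynomial (Fin 2) ℂ) : MvPowerSeries (Fin 2) ℂ) ((rr p T0 : ℝ) : ℂ) →
  LReg (p := p) T0 (if T0 = p then 1 else 0) (Zc (Hn (fun _ : Fin 1 => G) 0 1 0 1)) (0, 0)

/-- (E) reduced plane curves, from (E1). By `IsoC` there is a ball around the origin which contains no
other critical point, and `G = h ^ 2 κ` implies `h(0) ≠ 0` (else `Jac G ⊆ (h)`). At the other points of the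
ball `G` is a unit or smooth. For `rr p T0 ∈ N` use the order `≤ 2` (as for any curve), for `‖T0‖ ≤ 1` see
`local_x0`, `local_c0`. Then `LReg.glue` gives `FR p (mN p N) (FZ ⋯)` for the small balls, and
`Y230.PS.Vc_mem` the volumes. (Compare `cu_FRx` and its companions in `J4H50/NI/P3.lean`.) -/
def S_E : Prop := ∀ {p : ℕ} [Fact p.Prime] (emb : ℚ_[p] →+* ℂ) {V : Type} [Fintype V],
  Fintype.card V = 2 → ∀ (F : MvPolynomial V ℤ_[p]) (M : ℕ), constantCoeff F = 0 →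
  IsoC (map (emb.comp (cz p)) F) M →
  LV F {r : ℝ | NV ((map (emb.comp (cz p)) F : MvPolynomial V ℂ) : MvPowerSeries V ℂ) (r : ℂ)}

/-- (F) from the small balls to the poles. As `NI.poles` (`J4H50/NI/Fin.lean`); the volumes of the ball
around `P` are obtained from the exponential sums as there (`D_of_Eh`, `EP_of_op`), and the volumes of
`ℤ_p ^ V` are the sum over the balls (`Pool.Agent.N138.RF.D.t`, with `h` the indicator function). -/
def S_F : Prop := ∀ {p : ℕ} [Fact p.Prime] {V : Type} [Fintype V] (f : MvPolynomial V ℤ)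
  (B : Set ℝ), (-1 : ℝ) ∈ B →
  (∀ P : V → ℤ_[p], (∀ χ, LocX (map (Int.castRingHom ℤ_[p]) f) P (mS p B) χ) ∨
    LVP (map (Int.castRingHom ℤ_[p]) f) P B) →
  ∀ Z : ℂ → ℂ, MeromorphicOn Z Set.univ → (∀ s : ℂ, 0 < s.re → Z s = igusaZeta p f s) →
  ∀ s₀ : ℂ, meromorphicOrderAt Z s₀ < 0 → s₀.re ∈ B

/-- (G) the cone, for de Rham functionals: `YO.S_CN` (`p_CN` in `J4H50/YO`) with `k = 1`. The chart
`x = z (P + (0, y))`, `x_i = z P_i`, gives `G(x) = z ^ d (g(y) + z u(z, y))`, `u` a unit, with the Jacobian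
determinant `z ^ (n - 1) P_i`; then compose with the formal coordinate change `(z u(z, y), y)`. (`Sing g`
because `P` is a singular point of the cone. `V` is `Option {j // j ≠ i}` by `Equiv.optionSubtypeNe` or so,
and `NV` is invariant, `Pool.Agent.J4H19.YO.t_RN`.) -/
def S_G : Prop := ∀ {V : Type} [Fintype V] [DecidableEq V] (G : MvPolynomial V ℂ) (d : ℕ),
  2 ≤ d → (∀ j < d, homogeneousComponent j G = 0) → ∀ (P : V → ℂ) (i : V), P i ≠ 0 →
  (∀ l, eval P (pderiv l (homogeneousComponent d G)) = 0) →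
  eval P (homogeneousComponent (d + 1) G) ≠ 0 →
  ∀ s S : ℂ, S = (Fintype.card V : ℂ) + (d + 1) * s → (∀ m : ℕ, s ≠ m) →
  (∀ j : ℕ, 1 ≤ j → (Fintype.card V : ℂ) + d * s ≠ j) →
  NV (deh P i (homogeneousComponent d G) : MvPowerSeries {j : V // j ≠ i} ℂ) S →
  NV (G : MvPowerSeries V ℂ) s

/-- (H) the roots of the b-function: `Pool.Agent.J4H45.YO.t_NFE : S_NFE` (`J4H50/YO/Stm.lean`: a functional
excludes `FEv`), and the functional equation `b(s) f ^ s = P f ^ (s + 1)`, translated by `x`, gives `FEv` if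
`b(s) ≠ 0` (compare `HB_germ` in `J4H50/NI/Fin2.lean` and `FEv_of_formal`) -/
def S_H : Prop := ∀ {V : Type} [Fintype V] (f : MvPolynomial V ℂ) (b : Polynomial ℂ), f ≠ 0 →
  IsBFunction f b → ∀ x : V → ℂ, eval x f = 0 → (∀ i, eval x (pderiv i f) = 0) → ∀ s : ℂ,
  NV ((germ f x : MvPolynomial V ℂ) : MvPowerSeries V ℂ) s → b.eval s = 0

end Pool.Agent.J4H50.YP
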