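import Pool.Agent.J4H50.YP.Stm

set_option autoImplicit false
set_option linter.unusedSectionVars false
set_option linter.unusedVariables false

/-! # Project YP: the volumes as sums over the shells -/

namespace Pool.Agent.J4H50.YP

open MvPolynomial MeasureTheory
open Pool.Agent.W427.SMC
open Pool.Agent.Y230.PT (msK bsK rr)
open Pool.Agent.Y230.PS (EP Vo Vc)
open Pool.Agent.J4H50.IG (cz germ fb fb_meas)
open Pool.Agent.J4H50.YO (NV NonExact)

attribute [local instance] msZ bsZ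

/-- homogeneous polynomials -/
theorem eval_hom {R : Type} [CommRing R] {V : Type} (G : MvPolynomial V R) (j : ℕ)
    (hG : G.IsHomogeneous j) (t : R) (ξ : V → R) : eval (fun l => t * ξ l) G = t ^ j * eval ξ G := by
  classical
  rw [eval_eq, eval_eq, Finset.mul_sum]
  refine Finset.sum_congr rfl fun m hm => ?_
  have h1 : m.degree = j := by
    have h2 := hG (mem_support_iff.1 hm)
    rw [Finsupp.degree_eq_weight_one]
    exact h2
  have h3 : ∏ i ∈ m.support, (t * ξ i) ^ m i = t ^ j * ∏ i ∈ m.support, ξ i ^ m i := by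
    simp only [mul_pow]
    rw [Finset.prod_mul_distrib, Finset.prod_pow_eq_pow_sum, ← h1]
    rfl
  rw [h3]
  ring

variable {p : ℕ} [Fact p.Prime] {V : Type} [Fintype V]

theorem Qf_eval (F : MvPolynomial V ℤ_[p]) (d : ℕ) (hF : ∀ j < d, homogeneousComponent j F = 0)
    (t : ℤ_[p]) (ξ : V → ℤ_[p]) : eval (fun l => t * ξ l) F = t ^ d * Qf F d t ξ := by
  conv_lhs => rw [← sum_homogeneousComponent F]
  rw [map_sum, Qf, Finset.mul_sum]
  refine Finset.sum_congr rfl fun j _ => ?_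
  rw [eval_hom _ j (homogeneousComponent_isHomogeneous j F)]
  by_cases hj : j < d
  · rw [hF j hj, map_zero, mul_zero, mul_zero, mul_zero]
  · rw [← mul_assoc, ← pow_add, Nat.add_sub_cancel' (not_lt.1 hj)]

theorem ppos' : (0 : ℝ) < (p : ℝ)⁻¹ := inv_pos.2 (by exact_mod_cast (Fact.out : p.Prime).pos)

theorem plt' : ((p : ℝ)⁻¹) < 1 := inv_lt_one_of_one_lt₀ (by exact_mod_cast (Fact.out : p.Prime).one_lt)

theorem fb0 (F : MvPolynomial V ℤ_[p]) (k : ℕ) (y : V → ℤ_[p]) :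
    fb F 0 k y = eval (fun l => (p : ℤ_[p]) ^ k * y l) F := by
  unfold fb
  congr 2
  funext l
  rw [Pi.zero_apply, zero_add]

/-- the condition on one shell -/
theorem shell (F : MvPolynomial V ℤ_[p]) (d : ℕ) (hF : ∀ j < d, homogeneousComponent j F = 0)
    (k i e : ℕ) (u : ℤ_[p]) (hu : ‖u‖ = 1) (ξ : V → ℤ_[p]) :
    ‖fb F 0 k (fun l => (p : ℤ_[p]) ^ i * (u * ξ l))‖ ≤ ((p : ℝ)⁻¹) ^ e ↔
      ‖Qf F d ((p : ℤ_[p]) ^ (k + i) * u) ξ‖ ≤ ((p : ℝ)⁻¹) ^ (e - d * (k + i)) := by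
  have h1 : fb F 0 k (fun l => (p : ℤ_[p]) ^ i * (u * ξ l)) =
      ((p : ℤ_[p]) ^ (k + i) * u) ^ d * Qf F d ((p : ℤ_[p]) ^ (k + i) * u) ξ := by
    rw [fb0, ← Qf_eval F d hF]
    congr 2
    funext l
    rw [pow_add]
    ring
  have h2 : ‖fb F 0 k (fun l => (p : ℤ_[p]) ^ i * (u * ξ l))‖ =
      ((p : ℝ)⁻¹) ^ (d * (k + i)) * ‖Qf F d ((p : ℤ_[p]) ^ (k + i) * u) ξ‖ := by
    rw [h1, norm_mul, norm_pow, norm_mul, norm_pow, PadicInt.norm_p, hu, mul_one, ← pow_mul,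
      mul_comm d]
  rw [h2]
  have hq := ppos' (p := p)
  have hq1 := plt' (p := p)
  rcases le_total (d * (k + i)) e with h | h
  · obtain ⟨c, rfl⟩ := Nat.exists_eq_add_of_le h
    rw [Nat.add_sub_cancel_left, pow_add ((p : ℝ)⁻¹) (d * (k + i)) c,
      mul_le_mul_iff_right₀ (pow_pos hq _)]
  · rw [Nat.sub_eq_zero_of_le h, pow_zero]
    refine iff_of_true ?_ (PadicInt.norm_le_one _)
    calc ((p : ℝ)⁻¹) ^ (d * (k + i)) * ‖Qf F d ((p : ℤ_[p]) ^ (k + i) * u) ξ‖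
        ≤ ((p : ℝ)⁻¹) ^ (d * (k + i)) * 1 :=
          mul_le_mul_of_nonneg_left (PadicInt.norm_le_one _) (pow_pos hq _).le
      _ ≤ ((p : ℝ)⁻¹) ^ e := by
          rw [mul_one]
          exact pow_le_pow_of_le_one hq.le hq1.le h

/-- **The volumes as sums over the tubes and the shells.** -/
theorem vol_sum (F : MvPolynomial V ℤ_[p]) (d : ℕ) (hF : ∀ j < d, homogeneousComponent j F = 0)
    (A : Finset ((V → ℤ_[p]) × ℕ))
    (hA : ∀ X : Set (V → ℤ_[p]), MeasurableSet X →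
      ((Measure.pi fun _ : V => mu p) X).toReal =
        ∑ a ∈ A, ((p : ℝ)⁻¹) ^ ((Fintype.card V - 1) * a.2) * ∑' i : ℕ,
          ((p : ℝ)⁻¹) ^ (Fintype.card V * i) *
            (((mu p).prod (Measure.pi fun _ : V => mu p)) {z | ‖z.1‖ = 1 ∧
              (fun l => (p : ℤ_[p]) ^ i * (z.1 * (a.1 l + (p : ℤ_[p]) ^ a.2 * z.2 l))) ∈
                X}).toReal) (k : ℕ) :
    Vc (Measure.pi fun _ : V => mu p) (fun y => ‖fb F 0 k y‖) p =
      ∑ a ∈ A, (((p : ℂ)⁻¹) ^ ((Fintype.card V - 1) * a.2)) • fun e : ℕ => ∑' i : ℕ,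
        ((p : ℂ)⁻¹) ^ (Fintype.card V * i) * (Wt F d a.1 a.2 (k + i) (e - d * (k + i)) : ℂ) := by
  funext e
  rw [Finset.sum_apply]
  have hX : MeasurableSet {y : V → ℤ_[p] | ‖fb F 0 k y‖ ≤ ((p : ℝ)⁻¹) ^ e} :=
    measurableSet_le (continuous_norm.measurable.comp (fb_meas F 0 k)) measurable_const
  have h1 := hA _ hX
  unfold Vc Vo
  rw [h1]
  push_cast
  refine Finset.sum_congr rfl fun a _ => ?_
  rw [Pi.smul_apply, smul_eq_mul]
  congr 1
  refine tsum_congr fun i => ?_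
  congr 1
  unfold Wt
  congr 3
  ext z
  constructor
  · rintro ⟨h2, h3⟩
    exact ⟨h2, (shell F d hF k i e z.1 h2 _).1 h3⟩
  · rintro ⟨h2, h3⟩
    exact ⟨h2, (shell F d hF k i e z.1 h2 _).2 h3⟩

end Pool.Agent.J4H50.YP
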