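import Pool.Agent.J4H50.YP.AsmA

set_option autoImplicit false
set_option linter.unusedSectionVars false
set_option linter.unusedVariables false

/-! # Project YP: the cone, `p`-adically -/

namespace Pool.Agent.J4H50.YP

open MvPolynomial MeasureTheory
open Pool.Agent.W427.SMC
open Pool.Agent.Y230.PT (msK bsK rr)
open Pool.Agent.Y230.PS (EP Vo Vc N0 N0_EP mem_N0 K op op_apply mem_K_succ)
open Pool.Agent.J4H50.IG (cz germ fb fb_meas)
open Pool.Agent.J4H50.YO (NV NonExact)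

attribute [local instance] msZ bsZ

variable {p : ℕ} [Fact p.Prime] {V : Type} [Fintype V]

theorem w1_mem (c : ℕ) (x : ℂ) (m : ℂ → ℕ∞) : (fun j : ℕ => if j ≤ c then x else 0) ∈ EP m := by
  refine N0_EP m ((mem_N0 _).2 ⟨c + 1, fun j hj => ?_⟩)
  exact if_neg (by omega)

theorem w2_mem (c : ℕ) (x : ℂ) (N : Set ℝ) :
    (fun j : ℕ => x * ((p : ℂ)⁻¹) ^ (j - c)) ∈ EP (mN p N) := by
  have hp : (p : ℂ) ≠ 0 := by exact_mod_cast (Fact.out : p.Prime).ne_zero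
  refine Submodule.subset_span ⟨(p : ℂ), hp, 1, ?_, ?_⟩
  · unfold mN
    split_ifs with h1 h2
    · exact le_top
    · exact le_rfl
    · exact absurd rfl h2
  · rw [mem_K_succ]
    refine (mem_N0 _).2 ⟨c, fun j hj => ?_⟩
    rw [op_apply, Nat.sub_add_comm hj, pow_succ]
    ring

theorem LV.mono {F : MvPolynomial V ℤ_[p]} {N N' : Set ℝ} (h : LV F N) (hN : N ⊆ N') :
    LV F N' := by
  obtain ⟨k0, hk0⟩ := h
  refine ⟨k0, fun k hk => Pool.Agent.Y230.TH.EP_mono (fun T _ => ?_) (hk0 k hk)⟩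
  unfold mN
  split_ifs with h1 h2 h3
  · exact le_rfl
  · exact absurd ⟨h1.1, hN h1.2⟩ h2
  · exact absurd ⟨h1.1, hN h1.2⟩ h2
  · exact le_top
  · exact le_rfl
  · exact bot_le
  · exact bot_le

/-- the contribution of a tube -/
theorem loc_tube (hB1 : S_B1) (hB2 : S_B2) (hB3 : S_B3) (hC1 : S_C1) (hC2 : S_C2) (hD : S_D)
    [DecidableEq V] (F : MvPolynomial V ℤ_[p]) (d : ℕ) (hd : 1 ≤ d)
    (hF : ∀ j < d, homogeneousComponent j F = 0) (N : Set ℝ)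
    (hN : -(Fintype.card V : ℝ) / d ∈ N) (P : V → ℤ_[p]) (i0 : V) (hi0 : ‖P i0‖ = 1)
    (hs : (∀ l, eval P (pderiv l (homogeneousComponent d F)) = 0) →
      eval P (homogeneousComponent (d + 1) F) ≠ 0 ∧ ∃ N' : Set ℝ,
        LV (deh P i0 (homogeneousComponent d F)) N' ∧
        ∀ r : ℝ, r < 0 → (Fintype.card V : ℝ) + (d + 1) * r < 0 →
          (Fintype.card V : ℝ) + (d + 1) * r ∈ N' → r ∈ N) :
    ∃ ρ0 : ℕ, ∀ ρ, ρ0 ≤ ρ → 1 ≤ ρ → ∃ m0 : ℕ, ∀ k, m0 ≤ k →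
      (fun e : ℕ => ∑' i : ℕ, ((p : ℂ)⁻¹) ^ (Fintype.card V * i) *
        (Wt F d P ρ (k + i) (e - d * (k + i)) : ℂ)) ∈ EP (mN p N) := by
  have hn : 1 ≤ Fintype.card V := Fintype.card_pos_iff.2 ⟨i0⟩
  by_cases h0 : eval P (homogeneousComponent d F) = 0
  · by_cases h1 : ∀ l, eval P (pderiv l (homogeneousComponent d F)) = 0
    · obtain ⟨h2, N', ⟨k0, hk0⟩, h4⟩ := hs h1
      obtain ⟨γ, ρ0, h5⟩ := hB3 F d hF P h2
      refine ⟨max ρ0 k0, fun ρ hρ hρ1 => ?_⟩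
      obtain ⟨m0, h6⟩ := h5 ρ ((le_max_left _ _).trans hρ)
      refine ⟨m0, fun k hk => ?_⟩
      have h7 := hk0 ρ ((le_max_right _ _).trans hρ)
      rw [← hD (homogeneousComponent d F) d (homogeneousComponent_isHomogeneous d F) P i0 hi0 ρ
        hρ1] at h7
      have h8 := hC2 p (Fintype.card V) d k γ hn hd N' N hN h4 _ h7
      refine (congrArg (· ∈ EP (mN p N)) ?_).mp h8
      funext e
      refine tsum_congr fun i => ?_
      rw [h6 (k + i) (by omega)]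
    · push Not at h1
      obtain ⟨c, ρ0, h5⟩ := hB2 F d hF P h0 h1
      refine ⟨ρ0, fun ρ hρ hρ1 => ?_⟩
      obtain ⟨m0, h6⟩ := h5 ρ hρ
      refine ⟨m0, fun k hk => ?_⟩
      have h8 := hC1 p (Fintype.card V) d k hn hd N hN _
        (w2_mem (p := p) (ρ + c) (1 - (p : ℂ)⁻¹) ∅)
      refine (congrArg (· ∈ EP (mN p N)) ?_).mp h8
      funext e
      refine tsum_congr fun i => ?_
      rw [h6 (k + i) (by omega)]
      push_cast
      ring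
  · obtain ⟨c, ρ0, h5⟩ := hB1 F d hF P h0
    refine ⟨ρ0, fun ρ hρ hρ1 => ?_⟩
    obtain ⟨m0, h6⟩ := h5 ρ hρ
    refine ⟨m0, fun k hk => ?_⟩
    have h8 := hC1 p (Fintype.card V) d k hn hd N hN _ (w1_mem c (1 - (p : ℂ)⁻¹) _)
    refine (congrArg (· ∈ EP (mN p N)) ?_).mp h8
    funext e
    refine tsum_congr fun i => ?_
    rw [h6 (k + i) (by omega)]
    split_ifs
    · push_cast
      ring
    · rw [Complex.ofReal_zero]

/-- **The cone.** -/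
theorem lv_cone (hA : S_A) (hB1 : S_B1) (hB2 : S_B2) (hB3 : S_B3) (hC1 : S_C1) (hC2 : S_C2)
    (hD : S_D) [DecidableEq V] [Nonempty V] (F : MvPolynomial V ℤ_[p]) (d : ℕ) (hd : 1 ≤ d)
    (hF : ∀ j < d, homogeneousComponent j F = 0) (N : Set ℝ)
    (hN : -(Fintype.card V : ℝ) / d ∈ N)
    (hs : ∀ (P : V → ℤ_[p]) (i0 : V), ‖P i0‖ = 1 →
      (∀ l, eval P (pderiv l (homogeneousComponent d F)) = 0) →
      eval P (homogeneousComponent (d + 1) F) ≠ 0 ∧ ∃ N' : Set ℝ,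
        LV (deh P i0 (homogeneousComponent d F)) N' ∧
        ∀ r : ℝ, r < 0 → (Fintype.card V : ℝ) + (d + 1) * r < 0 →
          (Fintype.card V : ℝ) + (d + 1) * r ∈ N' → r ∈ N) : LV F N := by
  classical
  have key : ∀ P : V → ℤ_[p], ∃ ρ0 : ℕ, (∃ i, ‖P i‖ = 1) → ∀ ρ, ρ0 ≤ ρ → 1 ≤ ρ →
      ∃ m0 : ℕ, ∀ k, m0 ≤ k → (fun e : ℕ => ∑' i : ℕ, ((p : ℂ)⁻¹) ^ (Fintype.card V * i) *
        (Wt F d P ρ (k + i) (e - d * (k + i)) : ℂ)) ∈ EP (mN p N) := by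
    intro P
    by_cases h : ∃ i, ‖P i‖ = 1
    · obtain ⟨i0, hi0⟩ := h
      obtain ⟨ρ0, h1⟩ := loc_tube hB1 hB2 hB3 hC1 hC2 hD F d hd hF N hN P i0 hi0 (hs P i0 hi0)
      exact ⟨ρ0, fun _ => h1⟩
    · exact ⟨0, fun h' => absurd h' h⟩
  choose ρ0 hρ0 using key
  obtain ⟨A, hA1, hA2⟩ := hA (p := p) ρ0
  have key2 : ∀ a : (V → ℤ_[p]) × ℕ, ∃ m0 : ℕ, a ∈ A → ∀ k, m0 ≤ k →
      (fun e : ℕ => ∑' i : ℕ, ((p : ℂ)⁻¹) ^ (Fintype.card V * i) *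
        (Wt F d a.1 a.2 (k + i) (e - d * (k + i)) : ℂ)) ∈ EP (mN p N) := by
    intro a
    by_cases h : a ∈ A
    · obtain ⟨h1, h2, h3⟩ := hA1 a h
      obtain ⟨m0, h4⟩ := hρ0 a.1 h1 a.2 h3 h2
      exact ⟨m0, fun _ => h4⟩
    · exact ⟨0, fun h' => absurd h' h⟩
  choose m0 hm0 using key2
  refine ⟨A.sup m0, fun k hk => ?_⟩
  rw [vol_sum F d hF A hA2 k]
  refine Submodule.sum_mem _ fun a ha => Submodule.smul_mem _ _ (hm0 a ha k ?_)
  exact (Finset.le_sup ha).trans hk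

end Pool.Agent.J4H50.YP
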