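import Pool.Agent.J4H50.YP.AsmC

set_option autoImplicit false
set_option linter.unusedSectionVars false
set_option linter.unusedVariables false
set_option linter.unusedTactic false

/-! # Project YP: the theorem, from the pieces -/

namespace Pool.Agent.J4H50.YP

open MvPolynomial MeasureTheory
open Pool.Agent.W427.SMC
open Pool.Agent.Y230.PT (msK bsK inc rr exists_emb)
open Pool.Agent.Y230.PS (EP Vo Vc N0 N0_EP mem_N0 hyp single_of_isB)
open Pool.Agent.N138.SU Pool.Agent.N138.SV
open Pool.Agent.N138.BF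
open Pool.Agent.H628R4.TP (IsBFunction)
open Pool.Agent.J4H50.IG (hm mI cz cz_inj germ fb fb_meas LocOK loc_ne loc_nc hes hes_map rank_ext
  hes_symm germ_germ cc_germ pderiv_germ map_germ eval_castQ aeval_emb SingC mem_sq IsoC TS JEq
  germTS_nc Mild RatTS mild_ts rat_ts iso_descend eval_cz nonempty_of_nc mB_le loc_ts)
open Pool.Agent.J4H50.NI (mS mS_top LocX LocX_of loc_iso mW_mS)
open Pool.Agent.J4H50.YO (NV NonExact)

attribute [local instance] msZ bsZ

variable {p : ℕ} [Fact p.Prime] {V : Type} [Fintype V] [DecidableEq V]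

/-- from the germ to the point -/
theorem lvp_of_lv (f : MvPolynomial V ℤ_[p]) (P : V → ℤ_[p]) (N B : Set ℝ) (hNB : N ⊆ B)
    (hB : (-1 : ℝ) ∈ B) (h : LV (germ f P) N) : LVP f P B := by
  obtain ⟨k0, hk0⟩ := h
  refine ⟨k0, fun k hk => ?_⟩
  have e1 : (fun y => ‖fb f P k y‖) = fun y => ‖fb (germ f P) 0 k y‖ := by
    funext y
    congr 1
    unfold fb
    rw [germ_germ]
    congr 2
    funext i
    rw [Pi.zero_apply, zero_add, add_comm]
  rw [e1]
  refine Pool.Agent.Y230.TH.EP_mono (fun T _ => ?_) (hk0 k hk)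
  unfold mN
  split_ifs with h1 h2
  · rw [mS_top h1.1 (hNB h1.2)]
  · have hp1 : 1 < ‖(p : ℂ)‖ := by
      rw [Complex.norm_natCast]
      exact_mod_cast (Fact.out : p.Prime).one_lt
    have hrp : rr p (p : ℂ) = -1 := by
      unfold rr
      rw [Complex.norm_natCast]
      have : Real.log p ≠ 0 :=
        (Real.log_pos (by exact_mod_cast (Fact.out : p.Prime).one_lt)).ne'
      field_simp
    rw [h2, mS_top hp1 (by rw [hrp]; exact hB)]
    exact le_top
  · exact bot_le

/-- **Hypersurfaces whose singular points are superisolated, or isolated and mild, or rational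
Thom-Sebastiani sums.** -/
theorem main_poles (hA : S_A) (hB1 : S_B1) (hB2 : S_B2) (hB3 : S_B3) (hC1 : S_C1) (hC2 : S_C2)
    (hD : S_D) (hE : S_E) (hG : S_G) (hH : S_H) (hFF : S_F)
    (f : MvPolynomial V ℤ) (hV : 2 ≤ Fintype.card V) (hf : ∀ c, f ≠ C c)
    (h : ∀ x ∈ SingC f, SIG V (germ (map (Int.castRingHom ℂ) f) x) ∨
      ((∃ M, IsoC (germ (map (Int.castRingHom ℂ) f) x) M) ∧
        (Mild (germ (map (Int.castRingHom ℂ) f) x) ∨ RatTS f x)))
    (b : Polynomial ℂ) (hb : IsBFunction (map (Int.castRingHom ℂ) f) b)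
    (Z : ℂ → ℂ) (hZ : MeromorphicOn Z Set.univ)
    (hZp : ∀ s : ℂ, 0 < s.re → Z s = igusaZeta p f s) (s₀ : ℂ)
    (hs : meromorphicOrderAt Z s₀ < 0) : b.eval (s₀.re : ℂ) = 0 := by
  have hf0 : f ≠ 0 := fun h0 => hf 0 (by rw [h0, map_zero])
  obtain ⟨emb⟩ := exists_emb p
  have hbQ : IsBFunction (map (algebraMap ℚ ℂ) (map (Int.castRingHom ℚ) f)) b := by
    rw [map_map]
    have e : (algebraMap ℚ ℂ).comp (Int.castRingHom ℚ) = Int.castRingHom ℂ :=
      RingHom.ext_int _ _
    rw [e]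
    exact hb
  have hB1' : b.eval ((-1 : ℝ) : ℂ) = 0 := by
    have h1 := FK_nc _ (germTS_nc f hf) b (single_of_isB _ b hbQ)
    rw [pow_one] at h1
    have h2 := Polynomial.dvd_iff_isRoot.1 h1
    push_cast
    exact h2
  refine hFF (p := p) f {r | b.eval (r : ℂ) = 0} hB1' (fun P => ?_) Z hZ hZp s₀ hs
  set fp : MvPolynomial V ℤ_[p] := map (Int.castRingHom ℤ_[p]) f with hfp
  have ev : ∀ q : MvPolynomial V ℤ, eval P (map (Int.castRingHom ℤ_[p]) q) = aeval P q := by
    intro q
    rw [eval_map]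
    rfl
  by_cases hP : eval P fp = 0
  swap
  · exact Or.inl fun χ => LocX_of (loc_ne fp P hP _) χ
  by_cases hc : ∀ i, eval P (pderiv i fp) = 0
  swap
  · push Not at hc
    obtain ⟨i, hi⟩ := hc
    exact Or.inl fun χ => LocX_of (loc_nc fp P i hi _) χ
  -- the complex singular point
  set g : MvPolynomial V ℚ_[p] := germ (map (cz p) fp) fun i => cz p (P i) with hg
  set x : V → ℂ := fun i => emb (P i : ℚ_[p]) with hx
  have hev : ∀ q : MvPolynomial V ℤ, aeval x q = emb ((aeval P q : ℤ_[p]) : ℚ_[p]) :=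
    fun q => aeval_emb emb q P
  have hxS : x ∈ SingC f := by
    refine ⟨?_, fun i => ?_⟩
    · rw [hev, ← ev, hP, PadicInt.coe_zero, map_zero]
    · rw [hev, ← ev, ← pderiv_map, hc i, PadicInt.coe_zero, map_zero]
  have hmg : map emb g = germ (map (Int.castRingHom ℂ) f) x := by
    rw [hg, map_germ, hfp, map_map, map_map]
    have : (emb.comp (cz p)).comp (Int.castRingHom ℤ_[p]) = Int.castRingHom ℂ :=
      RingHom.ext_int _ _
    rw [← this]
    rfl
  rcases h x hxS with hr | ⟨⟨M, hM⟩, hm⟩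
  · -- superisolated
    right
    have hgp : map (emb.comp (cz p)) (germ fp P) = germ (map (Int.castRingHom ℂ) f) x := by
      rw [map_germ, hfp, map_map]
      have : (emb.comp (cz p)).comp (Int.castRingHom ℤ_[p]) = Int.castRingHom ℂ :=
        RingHom.ext_int _ _
      rw [← this]
      rfl
    have h1 := lv_of_SIG hA hB1 hB2 hB3 hC1 hC2 hD hE hG emb hr inferInstance _ hgp
    refine lvp_of_lv fp P _ _ (fun r hr' => ?_) hB1' h1
    have hfC : map (Int.castRingHom ℂ) f ≠ 0 := fun h =>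
      hf0 (map_injective _ Int.cast_injective (h.trans (map_zero _).symm))
    have evx : ∀ q : MvPolynomial V ℤ, eval x (map (Int.castRingHom ℂ) q) = aeval x q := by
      intro q
      rw [eval_map]
      rfl
    refine hH _ b hfC hb x ?_ (fun i => ?_) (r : ℂ) hr'
    · rw [evx]
      exact hxS.1
    · rw [pderiv_map, evx]
      exact hxS.2 i
  · -- isolated singularities
    left
    intro χ
    have hg2 : g ∈ mI V ℚ_[p] ^ 2 := by
      refine mem_sq _ ?_ fun i => ?_
      · rw [hg, cc_germ, ← eval_cz, hP, map_zero]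
      · rw [hg, pderiv_germ, cc_germ, pderiv_map, ← eval_cz, hc i, map_zero]
    rw [← hmg] at hM hm
    have hMg : IsoC g (M + 1) := (iso_descend emb hM).mono (Nat.le_succ M)
    have h1 : ∃ F : MvPolynomial V ℚ_[p], TS ℚ_[p] F ∧ (∃ M, IsoC F M) ∧ ∀ n, JEq g F n := by
      rcases hm with hm | hm
      · exact mild_ts two_ne_zero emb g hg2 (Nat.le_add_left 1 M) hMg hV hm
      · exact rat_ts emb f x (fun i => ⟨_, rfl⟩) g hmg (Nat.le_add_left 1 M) hMg hm
    obtain ⟨k0, hk0⟩ := LocX_of (loc_iso f hf P hP hc h1) χ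
    exact ⟨k0, fun k hk => Pool.Agent.Y230.TH.EP_mono (fun T _ => mW_mS f b hb T) (hk0 k hk)⟩

end Pool.Agent.J4H50.YP
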